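import Pool.Agent.Lib.MP_a78e1f_lc.R.Iface

/-!
# REP: all elements of `RA A` are given by measurable sets
-/

universe u v w

open Cardinal Filter MeasureTheory

namespace Pool.Agent.Lib.MP_a78e1f_lc.H95

open Pool.Agent.Lib.MP_100a6c_lc
open Pool.Agent.Lib.MP_c5d73d_lc.F (pr)
open Pool.Agent.Lib.MP_e6fef2_lc
open Pool.Agent.Lib.MP_6d445e_gt

theorem prob_cm : IsProbabilityMeasure cm := by
  unfold cm
  infer_instance

attribute [local instance] prob_cm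

section

variable {A : Type u} [CompleteBooleanAlgebra A]

/-- A set which is not null is large on a nonzero element. -/
theorem exists_large (hMeas : MeasStatement.{u}) {E : Set (Pt A)} (hE : MeasurableSet E)
    (hn : ¬ nl E) : ∃ q : ℝ, 0 < q ∧ ∃ a : A, a ≠ ⊥ ∧
      ∀ᶠ g in ae A, a ∈ g → q < cm.real (sec E g) := by
  by_contra hcon0
  have hcon : ∀ q : ℝ, 0 < q → ∀ a : A, a ≠ ⊥ →
      ¬ ∀ᶠ g in ae A, a ∈ g → q < cm.real (sec E g) :=
    fun q hq a ha h => hcon0 ⟨q, hq, a, ha, h⟩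
  apply hn
  have h1 := (hMeas A).1 E hE
  have h2 : ∀ n : ℕ, ∀ᶠ g in ae A, ¬ (1 / ((n : ℝ) + 1) < cm.real (sec E g)) := by
    intro n
    have hq : (0 : ℝ) < 1 / ((n : ℝ) + 1) := by positivity
    have h3 : MeasurableSet {g : Ult A | 1 / ((n : ℝ) + 1) < cm.real (sec E g)} :=
      measurableSet_lt measurable_const h1
    have h4 := (hMeas A).2.1 _ h3
    by_cases hb : bv (fun g : Ult A => 1 / ((n : ℝ) + 1) < cm.real (sec E g)) = ⊥
    · rw [hb] at h4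
      filter_upwards [h4] with g hg hg'
      exact g.not_bot (hg.2 hg')
    · exact absurd (h4.mono fun g hg hg' => hg.1 hg') (hcon _ hq _ hb)
  filter_upwards [ae_all_nat h2] with g hg
  by_contra hne
  have h5 : 0 < cm.real (sec E g) := by
    rw [measureReal_def]
    exact ENNReal.toReal_pos hne (measure_ne_top _ _)
  obtain ⟨n, hn⟩ := exists_nat_one_div_lt h5
  exact hg n hn

/-- The set `F` of `RCC` gives the supremum. -/
theorem mkR_rcc (hMeas : MeasStatement.{u}) (hRapi : RapiStatement.{u}) {T : Type u}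
    {E : T → Set (Pt A)} (hE : ∀ t, MeasurableSet (E t)) {F : Set (Pt A)} (hF : MeasurableSet F)
    (h1 : ∀ t, nl (E t \ F))
    (h2 : ∀ q : ℝ, 0 < q → ∀ a : A, a ≠ ⊥ → ∃ b, b ≠ ⊥ ∧ b ≤ a ∧
      ∃ s : Finset T, ∀ᶠ g in ae A, b ∈ g → cm.real (sec (F \ ⋃ t ∈ s, E t) g) < q) :
    mkR F = ⨆ t, mkR (E t) := by
  obtain ⟨r1, r2, r3, r4, r5, r6, r7, r8, r9, r10⟩ := hRapi A
  apply le_antisymm
  · by_contra hcon
    have h3 : mkR F ⊓ (⨆ t, mkR (E t))ᶜ ≠ ⊥ := by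
      intro h
      apply hcon
      rw [← compl_compl (⨆ t, mkR (E t)), le_compl_iff_disjoint_right, disjoint_iff]
      exact h
    obtain ⟨p, hp⟩ := r9 _ h3
    have hpF : nl (p.1 \ F) := (r1 _ _ p.2.1 hF).1 (hp.trans inf_le_left)
    have hpE : ∀ t, nl (p.1 ∩ E t) := by
      intro t
      rw [← r7 _ (p.2.1.inter (hE t)), r2 _ _ p.2.1 (hE t), ← le_bot_iff]
      calc mkR p.1 ⊓ mkR (E t) ≤ (⨆ t, mkR (E t))ᶜ ⊓ ⨆ t, mkR (E t) :=
            inf_le_inf (hp.trans inf_le_right) (le_iSup (fun t => mkR (E t)) t)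
        _ = ⊥ := compl_inf_self _
        _ ≤ ⊥ := le_rfl
    obtain ⟨q, hq, a, ha, hqa⟩ := exists_large hMeas p.2.1 p.2.2
    obtain ⟨b, hb, hba, s, hs⟩ := h2 q hq a ha
    have h4 : ∀ᶠ g in ae A, ∀ t : s, cm (sec (p.1 ∩ E t.1) g) = 0 := ae_all fun t => hpE t.1
    obtain ⟨g, hbg, ⟨⟨g1, g2⟩, g3⟩, g4⟩ :=
      exists_of_ae (((hqa.and hs).and h4).and hpF) hb
    have g5 := g1 (g.mono hba hbg)
    have g6 := g2 hbg
    have g7 : sec p.1 g ⊆ (sec (p.1 \ F) g ∪ ⋃ t : s, sec (p.1 ∩ E t.1) g) ∪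
        sec (F \ ⋃ t ∈ s, E t) g := by
      intro x hx
      by_cases hxF : (g, x) ∈ F
      · by_cases hxE : (g, x) ∈ ⋃ t ∈ s, E t
        · left; right
          simp only [Set.mem_iUnion] at hxE ⊢
          obtain ⟨t, ht, hxt⟩ := hxE
          exact ⟨⟨t, ht⟩, hx, hxt⟩
        · right
          exact ⟨hxF, hxE⟩
      · left; left
        exact ⟨hx, hxF⟩
    have g8 : cm (sec (p.1 \ F) g ∪ ⋃ t : s, sec (p.1 ∩ E t.1) g) = 0 :=
      measure_union_null g4 (measure_iUnion_null g3)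
    have g9 : cm.real (sec p.1 g) ≤ cm.real (sec (F \ ⋃ t ∈ s, E t) g) := by
      refine ENNReal.toReal_mono (measure_ne_top _ _) ?_
      calc cm (sec p.1 g) ≤ cm ((sec (p.1 \ F) g ∪ ⋃ t : s, sec (p.1 ∩ E t.1) g) ∪
            sec (F \ ⋃ t ∈ s, E t) g) := measure_mono g7
        _ ≤ cm (sec (p.1 \ F) g ∪ ⋃ t : s, sec (p.1 ∩ E t.1) g) +
            cm (sec (F \ ⋃ t ∈ s, E t) g) := measure_union_le _ _
        _ = cm (sec (F \ ⋃ t ∈ s, E t) g) := by rw [g8, zero_add]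
    linarith
  · exact iSup_le fun t => (r1 _ _ (hE t) hF).2 (h1 t)

end

theorem repT (hRapi : RapiStatement.{u}) (hRcc : RccStatement.{u}) (hMeas : MeasStatement.{u}) :
    RepStatement.{u} := by
  intro A _
  obtain ⟨r1, r2, r3, r4, r5, r6, r7, r8, r9, r10⟩ := hRapi A
  have h1 : ∀ r : RA A, MeasurableSet (rep r) ∧ mkR (rep r) = r := by
    intro r
    have hex : ∃ E : Set (Pt A), MeasurableSet E ∧ mkR E = r := by
      obtain ⟨F, hF, hF1, hF2⟩ := hRcc A {p : Po A // mkR p.1 ≤ r} (fun p => p.1.1)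
        fun p => p.1.2.1
      exact ⟨F, hF, by
        rw [mkR_rcc hMeas hRapi (fun p => p.1.2.1) hF hF1 hF2]
        exact (r10 r).symm⟩
    unfold rep
    rw [dif_pos hex]
    exact hex.choose_spec
  refine ⟨h1, ?_, ?_⟩
  · intro E hE
    have h2 := h1 (mkR E)
    exact ⟨(r1 _ _ h2.1 hE).1 h2.2.le, (r1 _ _ hE h2.1).1 h2.2.ge⟩
  · intro T r q hq a ha
    obtain ⟨F, hF, hF1, hF2⟩ := hRcc A T (fun t => rep (r t)) fun t => (h1 _).1
    have h2 : mkR F = ⨆ t, r t := by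
      rw [mkR_rcc hMeas hRapi (fun t => (h1 _).1) hF hF1 hF2]
      exact iSup_congr fun t => (h1 _).2
    have h3 : nl (rep (⨆ t, r t) \ F) := by
      refine (r1 _ _ (h1 _).1 hF).1 ?_
      rw [(h1 _).2, h2]
    obtain ⟨b, hb, hba, s, hs⟩ := hF2 q hq a ha
    refine ⟨b, hb, hba, s, ?_⟩
    filter_upwards [hs, h3] with g g1 g2 hbg
    refine lt_of_le_of_lt ?_ (g1 hbg)
    refine ENNReal.toReal_mono (measure_ne_top _ _) ?_
    calc cm (sec (rep (⨆ t, r t) \ ⋃ t ∈ s, rep (r t)) g)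
        ≤ cm (sec (rep (⨆ t, r t) \ F) g ∪ sec (F \ ⋃ t ∈ s, rep (r t)) g) := by
          refine measure_mono fun x hx => ?_
          by_cases hxF : (g, x) ∈ F
          · exact Or.inr ⟨hxF, hx.2⟩
          · exact Or.inl ⟨hx.1, hxF⟩
      _ ≤ cm (sec (rep (⨆ t, r t) \ F) g) + cm (sec (F \ ⋃ t ∈ s, rep (r t)) g) :=
          measure_union_le _ _
      _ = cm (sec (F \ ⋃ t ∈ s, rep (r t)) g) := by rw [g2, zero_add]

theorem rep (hRapi : RapiStatement.{u}) (hRcc : RccStatement.{u}) (hMeas : MeasStatement.{u}) :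
    RepStatement.{u} :=
  repT hRapi hRcc hMeas

end Pool.Agent.Lib.MP_a78e1f_lc.H95
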