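import Pool.Agent.Lib.MP_a78e1f_lc.H95.Rep

/-!
# RSEL: existence of random points over `N`
-/

universe u v w

open Cardinal Filter MeasureTheory

namespace Pool.Agent.Lib.MP_a78e1f_lc.H95

open Pool.Agent.Lib.MP_100a6c_lc
open Pool.Agent.Lib.MP_c5d73d_lc.F (pr)
open Pool.Agent.Lib.MP_e6fef2_lc
open Pool.Agent.Lib.MP_6d445e_gt

attribute [local instance] prob_cm

theorem res_succ (x : Cs) (n : ℕ) : res x (n + 1) = res x n ++ [x n] := by
  unfold res
  rw [List.range_succ, List.map_append]
  rfl

theorem res_length (x : Cs) (n : ℕ) : (res x n).length = n := by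
  unfold res
  simp

theorem inj_count {N : Set El.{u}} (hN : N.Countable) (T : Type u) :
    {t : T | In N t}.Countable := by
  refine Set.Countable.preimage_of_injOn (f := fun t : T => (⟨T, t⟩ : El.{u})) hN ?_
  intro x _ y _ hxy
  exact eq_of_heq (Sigma.mk.inj hxy).2

section

variable {A : Type u} [CompleteBooleanAlgebra A]

/-- The measure of the closed set below `σ`. -/
noncomputable def wt (ε : List Bool → A) (g : Ult A) (σ : List Bool) : ℝ :=
  cm.real (sec (Kc ε ∩ cyl σ) g)

open Classical in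
/-- The initial segments of the selected point. -/
noncomputable def sg (ε : List Bool → A) (g : Ult A) : ℕ → List Bool
  | 0 => []
  | n + 1 => sg ε g n ++ [decide (0 < wt ε g (sg ε g n ++ [true]))]

open Classical in
/-- The selected point. -/
noncomputable def sp (ε : List Bool → A) (g : Ult A) : Cs :=
  fun n => decide (0 < wt ε g (sg ε g n ++ [true]))

theorem res_sp (ε : List Bool → A) (g : Ult A) (n : ℕ) : res (sp ε g) n = sg ε g n := by
  induction n with
  | zero => rfl
  | succ n ih =>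
    rw [res_succ, ih]
    rfl

theorem wt_split (ε : List Bool → A) (g : Ult A) (σ : List Bool) :
    wt ε g σ ≤ wt ε g (σ ++ [true]) + wt ε g (σ ++ [false]) := by
  unfold wt
  have h1 : sec (Kc ε ∩ cyl σ) g ⊆
      sec (Kc ε ∩ cyl (σ ++ [true])) g ∪ sec (Kc ε ∩ cyl (σ ++ [false])) g := by
    intro x hx
    have h2 : res x σ.length = σ := hx.2
    have h3 : ∀ b : Bool, x σ.length = b → (g, x) ∈ Kc ε ∩ cyl (σ ++ [b]) := by
      intro b hb
      refine ⟨hx.1, ?_⟩
      show res x (σ ++ [b]).length = σ ++ [b]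
      rw [List.length_append, List.length_singleton, res_succ, h2, hb]
    cases hb : x σ.length with
    | true => exact Or.inl (h3 true hb)
    | false => exact Or.inr (h3 false hb)
  exact (measureReal_mono h1 (measure_ne_top _ _)).trans (measureReal_union_le _ _)

theorem wt_pos {ε : List Bool → A} {g : Ult A} (h0 : 0 < wt ε g []) (n : ℕ) :
    0 < wt ε g (sg ε g n) := by
  induction n with
  | zero => exact h0
  | succ n ih =>
    show 0 < wt ε g (sg ε g n ++ [decide (0 < wt ε g (sg ε g n ++ [true]))])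
    by_cases h1 : 0 < wt ε g (sg ε g n ++ [true])
    · rw [decide_eq_true h1]
      exact h1
    · rw [decide_eq_false h1]
      have h2 := wt_split ε g (sg ε g n)
      push Not at h1
      linarith

theorem sp_mem {ε : List Bool → A} {g : Ult A} (h0 : 0 < wt ε g []) : (g, sp ε g) ∈ Kc ε := by
  intro n
  have h1 := wt_pos h0 n
  have h2 : (sec (Kc ε ∩ cyl (sg ε g n)) g).Nonempty := by
    rw [Set.nonempty_iff_ne_empty]
    intro h
    unfold wt at h1
    rw [h, measureReal_empty] at h1
    exact lt_irrefl _ h1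
  obtain ⟨y, hy1, hy2⟩ := h2
  have h3 : (sg ε g n).length = n := by
    rw [← res_sp, res_length]
  have h4 : res y n = sg ε g n := by
    have : res y (sg ε g n).length = sg ε g n := hy2
    rwa [h3] at this
  show ε (res (sp ε g) n) ∉ g
  rw [res_sp, ← h4]
  exact hy1 n

theorem meas_sg (hMeas : MeasStatement.{u}) (ε : List Bool → A) (n : ℕ) (σ : List Bool) :
    MeasurableSet {g : Ult A | sg ε g n = σ} := by
  classical
  obtain ⟨m1, m2, m3, m4, m5, m6, m7, m8, m9⟩ := hMeas A
  have hw : ∀ τ : List Bool, MeasurableSet {g : Ult A | 0 < wt ε g τ} := fun τ =>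
    measurableSet_lt measurable_const (m1 _ ((m6 ε).inter (m5 τ)))
  induction n generalizing σ with
  | zero =>
    show MeasurableSet {g : Ult A | ([] : List Bool) = σ}
    exact MeasurableSet.const _
  | succ n ih =>
    have h1 : {g : Ult A | sg ε g (n + 1) = σ} =
        ⋃ τ : List Bool, {g : Ult A | sg ε g n = τ} ∩
          {g : Ult A | τ ++ [decide (0 < wt ε g (τ ++ [true]))] = σ} := by
      ext g
      simp only [Set.mem_ofPred_eq, Set.mem_iUnion, Set.mem_inter_iff]
      constructor
      · intro h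
        exact ⟨_, rfl, h⟩
      · rintro ⟨τ, rfl, h⟩
        exact h
    rw [h1]
    refine MeasurableSet.iUnion fun τ => (ih τ).inter ?_
    have h2 : {g : Ult A | τ ++ [decide (0 < wt ε g (τ ++ [true]))] = σ} =
        ({g : Ult A | 0 < wt ε g (τ ++ [true])} ∩ {g : Ult A | τ ++ [true] = σ}) ∪
          ({g : Ult A | 0 < wt ε g (τ ++ [true])}ᶜ ∩ {g : Ult A | τ ++ [false] = σ}) := by
      ext g
      simp only [Set.mem_ofPred_eq, Set.mem_union, Set.mem_inter_iff, Set.mem_compl_iff]
      by_cases hg : 0 < wt ε g (τ ++ [true])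
      · simp [hg]
      · simp [hg]
    rw [h2]
    exact ((hw _).inter (MeasurableSet.const _)).union ((hw _).compl.inter (MeasurableSet.const _))

theorem meas_sp (hMeas : MeasStatement.{u}) (ε : List Bool → A) (n : ℕ) :
    MeasurableSet {g : Ult A | sp ε g n = true} := by
  classical
  obtain ⟨m1, m2, m3, m4, m5, m6, m7, m8, m9⟩ := hMeas A
  have hw : ∀ τ : List Bool, MeasurableSet {g : Ult A | 0 < wt ε g τ} := fun τ =>
    measurableSet_lt measurable_const (m1 _ ((m6 ε).inter (m5 τ)))
  have h1 : {g : Ult A | sp ε g n = true} =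
      ⋃ τ : List Bool, {g : Ult A | sg ε g n = τ} ∩ {g : Ult A | 0 < wt ε g (τ ++ [true])} := by
    ext g
    simp only [Set.mem_ofPred_eq, Set.mem_iUnion, Set.mem_inter_iff, sp, decide_eq_true_eq]
    constructor
    · intro h
      exact ⟨_, rfl, h⟩
    · rintro ⟨τ, rfl, h⟩
      exact h
  rw [h1]
  exact MeasurableSet.iUnion fun τ => (meas_sg hMeas ε n τ).inter (hw _)

end

theorem rsel (hReg : RegStatement.{u}) (hMeas : MeasStatement.{u}) : RselStatement.{u} := by
  intro A _
  obtain ⟨m1, m2, m3, m4, m5, m6, m7, m8, m9⟩ := hMeas A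
  filter_upwards [all_club.{u}.2.1] with N hN
  have hc : {E : Set (Pt A) | In N E ∧ MeasurableSet E ∧ nl E}.Countable :=
    (inj_count hN (Set (Pt A))).mono fun E hE => hE.1
  obtain ⟨Es, hEs⟩ : ∃ Es : Set (Pt A), Es = ⋃₀ {E : Set (Pt A) | In N E ∧ MeasurableSet E ∧ nl E} :=
    ⟨_, rfl⟩
  have hEm : MeasurableSet Es := by
    rw [hEs]
    exact MeasurableSet.sUnion hc fun E hE => hE.2.1
  have hcc := hc.to_subtype
  have hEn : nl Es := by
    have h1 : ∀ᶠ g in ae A, ∀ E : {E : Set (Pt A) | In N E ∧ MeasurableSet E ∧ nl E},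
        cm (sec E.1 g) = 0 := ae_all fun E => E.2.2.2
    filter_upwards [h1] with g hg
    have h2 : sec Es g = ⋃ E : {E : Set (Pt A) | In N E ∧ MeasurableSet E ∧ nl E}, sec E.1 g := by
      rw [hEs]
      ext x
      simp only [sec, Set.mem_ofPred_eq, Set.mem_sUnion, Set.mem_iUnion, Subtype.exists,
        exists_prop]
    rw [h2]
    exact measure_iUnion_null hg
  obtain ⟨ε, hε1, hε2⟩ := hReg A Es hEm (1 / 2) (by norm_num)
  obtain ⟨X, hX⟩ := exists_name (J := ℕ) (F := fun n g => sp ε g n = true)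
    fun n => meas_sp hMeas ε n
  refine ⟨X, ?_⟩
  have hmem : ∀ᶠ g in ae A, (g, vx X g) ∈ Kc ε := by
    classical
    filter_upwards [hX, hε2, hEn] with g g1 g2 g3
    have g4 : vx X g = sp ε g := by
      funext n
      unfold vx
      rw [Bool.eq_iff_iff, decide_eq_true_iff]
      exact g1 n
    rw [g4]
    refine sp_mem ?_
    have g5 : (Set.univ : Set Cs) ⊆
        (sec (Kc ε ∩ cyl []) g ∪ sec ((Kc ε)ᶜ \ Es) g) ∪ sec Es g := by
      intro x _
      by_cases hx : (g, x) ∈ Es
      · exact Or.inr hx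
      · left
        by_cases hx' : (g, x) ∈ Kc ε
        · exact Or.inl ⟨hx', rfl⟩
        · exact Or.inr ⟨hx', hx⟩
    have g6 : cm.real (sec Es g) = 0 := by
      rw [measureReal_def, g3]
      rfl
    have g7 : (1 : ℝ) ≤ wt ε g [] + 1 / 2 := by
      calc (1 : ℝ) = cm.real (Set.univ : Set Cs) := by
            rw [probReal_univ]
        _ ≤ cm.real ((sec (Kc ε ∩ cyl []) g ∪ sec ((Kc ε)ᶜ \ Es) g) ∪ sec Es g) :=
            measureReal_mono g5 (measure_ne_top _ _)
        _ ≤ cm.real (sec (Kc ε ∩ cyl []) g ∪ sec ((Kc ε)ᶜ \ Es) g) + cm.real (sec Es g) :=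
            measureReal_union_le _ _
        _ ≤ (cm.real (sec (Kc ε ∩ cyl []) g) + cm.real (sec ((Kc ε)ᶜ \ Es) g)) + 0 := by
            rw [g6]
            exact add_le_add (measureReal_union_le _ _) le_rfl
        _ ≤ wt ε g [] + 1 / 2 := by
            rw [add_zero]
            exact add_le_add le_rfl g2
    linarith
  unfold rn
  refine le_inf le_rfl (le_iInf fun E => le_iInf fun h1 => le_iInf fun h2 => le_iInf fun h3 => ?_)
  refine le_of_ae ?_
  filter_upwards [hmem, hε1, m2 _ (m3 X E h2)] with g g1 g2 g3 _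
  rw [g.mem_compl, g3]
  intro h4
  refine g2 _ g1 ?_
  rw [hEs]
  exact ⟨E, ⟨h1, h2, h3⟩, h4⟩

end Pool.Agent.Lib.MP_a78e1f_lc.H95
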