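import Pool.Agent.Lib.MP_a78e1f_lc.H95.Rsel

/-!
# VER: the verification of genericity and randomness at the end of a fusion
-/

universe u v w

open Cardinal Filter MeasureTheory

namespace Pool.Agent.Lib.MP_a78e1f_lc.H95

open Pool.Agent.Lib.MP_100a6c_lc
open Pool.Agent.Lib.MP_c5d73d_lc.F (pr)
open Pool.Agent.Lib.MP_e6fef2_lc
open Pool.Agent.Lib.MP_6d445e_gt

theorem ae_gen {A : Type u} [CompleteBooleanAlgebra A] {N : Set El.{u}} (hN : N.Countable) :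
    ∀ᶠ g in ae A,
      (∀ D : Set A, In N D → sSup D = ⊤ → ∃ d ∈ D, In N d ∧ d ∈ g) → gen A N ∈ g := by
  have hc : Countable {D : Set A // In N D ∧ sSup D = ⊤} :=
    ((inj_count hN (Set A)).mono fun D hD => hD.1).to_subtype
  obtain ⟨φ, hφ⟩ : ∃ φ : {D : Set A // In N D ∧ sSup D = ⊤} → A,
    φ = fun D => ⨆ (d : A) (_ : d ∈ D.1) (_ : In N d), d := ⟨_, rfl⟩
  filter_upwards [ae_iInf φ] with g h1 h2
  have h3 : (⨅ D, φ D) ≤ gen A N := by
    unfold gen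
    refine le_iInf fun D => le_iInf fun hD => le_iInf fun hD' => ?_
    refine (iInf_le φ ⟨D, hD, hD'⟩).trans ?_
    rw [hφ]
  refine g.mono h3 (h1.2 fun D => ?_)
  obtain ⟨d, hd, hd', hg⟩ := h2 D.1 D.2.1 D.2.2
  rw [hφ]
  exact g.mono (le_iSup_of_le d (le_iSup_of_le hd (le_iSup_of_le hd' le_rfl))) hg

/-- The set of elements which decide `c`. -/
def Dd {C : Type u} [CompleteBooleanAlgebra C] (c : C) : Set C := {d | d ≤ c ∨ d ≤ cᶜ}

theorem sSup_Dd {C : Type u} [CompleteBooleanAlgebra C] (c : C) : sSup (Dd c) = ⊤ := by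
  rw [eq_top_iff, ← sup_compl_eq_top (x := c)]
  exact sup_le (le_sSup (Or.inl le_rfl)) (le_sSup (Or.inr le_rfl))

theorem ver (hEvx : EvxStatement.{u}) (hRapi : RapiStatement.{u}) (hKap : KapStatement.{u})
    (hMeas : MeasStatement.{u}) : VerStatement.{u} := by
  intro C _
  obtain ⟨m1, m2, m3, m4, m5, m6, m7, m8, m9⟩ := hMeas C
  obtain ⟨r1, r2, r3, r4, r5, r6, r7, r8, r9, r10⟩ := hRapi C
  obtain ⟨k1, k2, k3, k4, k5, k6, k7⟩ := hKap C
  obtain ⟨x1, x2, x3⟩ := hEvx C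
  have hclub := all_club.{u}
  obtain ⟨c1, c2, c3, c4, c5, c6, c7, c8, c9, c10, c11⟩ := hclub
  -- `ε σ` and `Dd c` are in `N`
  have hev : ∀ᶠ N in club, ∀ σ : List Bool, ∀ ε : List Bool → C, In N ε → In N (ε σ) := by
    obtain ⟨s, hs⟩ := exists_surjective_nat (List Bool)
    have h1 := c3 (fun n N => ∀ ε : List Bool → C, In N ε → In N (ε (s n)))
      fun n => c6 (List Bool → C) C fun ε => ε (s n)
    filter_upwards [h1] with N hN σ
    obtain ⟨n, rfl⟩ := hs σ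
    exact hN n
  filter_upwards [x1, x2, c2, hev, c6 C (Set C) Dd] with N n1 n2 n3 n4 n5 X
  -- countably many conditions
  have hc1 : Countable {q : (List Bool → C) × Set (Pt C) // In N q.1 ∧ In N q.2 ∧
      Avd q.1 q.2} := by
    have h1 := ((inj_count n3 (List Bool → C)).prod (inj_count n3 (Set (Pt C))))
    have h2 : {q : (List Bool → C) × Set (Pt C) | In N q.1 ∧ In N q.2 ∧ Avd q.1 q.2}.Countable :=
      h1.mono fun q hq => Set.mem_prod.2 ⟨hq.1, hq.2.1⟩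
    exact h2.to_subtype
  have hc2 : Countable {q : (List Bool → C) × RA C // In N q.1 ∧ In N q.2 ∧
      Avd q.1 (MP_a78e1f_lc.rep q.2)ᶜ} := by
    have h1 := ((inj_count n3 (List Bool → C)).prod (inj_count n3 (RA C)))
    have h2 : {q : (List Bool → C) × RA C | In N q.1 ∧ In N q.2 ∧
        Avd q.1 (MP_a78e1f_lc.rep q.2)ᶜ}.Countable :=
      h1.mono fun q hq => Set.mem_prod.2 ⟨hq.1, hq.2.1⟩
    exact h2.to_subtype
  have ha1 : ∀ᶠ h in ae C, ∀ q : {q : (List Bool → C) × Set (Pt C) // In N q.1 ∧ In N q.2 ∧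
      Avd q.1 q.2}, ∀ x : Cs, (h, x) ∈ Kc q.1.1 → (h, x) ∉ q.1.2 := ae_all fun q => q.2.2.2
  have ha2 : ∀ᶠ h in ae C, ∀ q : {q : (List Bool → C) × RA C // In N q.1 ∧ In N q.2 ∧
      Avd q.1 (MP_a78e1f_lc.rep q.2)ᶜ}, ∀ x : Cs, (h, x) ∈ Kc q.1.1 → (h, x) ∉ (MP_a78e1f_lc.rep q.1.2)ᶜ :=
    ae_all fun q => q.2.2.2
  filter_upwards [n1 X, n2 X, ae_gen n3, ha1, ha2] with h h1 h2 h3 h4 h5 e he hanti H1 H2 H3 H4
  have hanti' : ∀ m n, m ≤ n → e n ≤ e m := fun m n hmn => antitone_nat_of_succ_le hanti hmn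
  -- the claim
  have claim : ∀ (n : ℕ) (ε : List Bool → C), In N ε → e n ≤ cl ε → (h, vx X h) ∈ Kc ε := by
    intro n ε hε hle k hk
    obtain ⟨σ, hσ⟩ : ∃ σ, σ = res (vx X h) k := ⟨_, rfl⟩
    have hk' : ε σ ∈ h := by
      rw [hσ]
      exact hk
    obtain ⟨m, d, hd, hdN, hdh, hm⟩ := H3 (Dd (ε σ)) (n5 _ (n4 σ ε hε)) (sSup_Dd _)
    have hd' : d ≤ ε σ := by
      rcases hd with hd | hd
      · exact hd
      · exact absurd hk' (h.mem_compl.1 (h.mono hd hdh))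
    apply H4 (max m n) k
    rw [← hσ, ← le_bot_iff]
    have h6 : e (max m n) ≤ kap (ε σ) := by
      refine (hanti' _ _ (le_max_left m n)).trans (hm.trans ?_)
      exact ((all_alg C (RA C) kap k1).2.2.2.2.1 _ _).2 hd'
    have h7 : e (max m n) ≤ cl ε := (hanti' _ _ (le_max_right m n)).trans hle
    calc e (max m n) ⊓ cy σ ≤ kap (ε σ) ⊓ (mkR (Kc ε) ⊓ mkR (cyl σ)) :=
          le_inf (inf_le_left.trans h6) (le_inf (inf_le_left.trans h7) inf_le_right)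
      _ = kap (ε σ) ⊓ mkR (Kc ε ∩ cyl σ) := by rw [r2 _ _ (m6 ε) (m5 σ)]
      _ = mkR {p | ε σ ∈ p.1 ∧ p ∈ Kc ε ∩ cyl σ} := k4 _ _ ((m6 ε).inter (m5 σ))
      _ = mkR ∅ := by
          congr 1
          rw [Set.eq_empty_iff_forall_notMem]
          rintro p ⟨p1, p2, p3⟩
          have p4 : res p.2 σ.length = σ := p3
          have p5 := p2 σ.length
          rw [p4] at p5
          exact p5 p1
      _ = ⊥ := r6
      _ ≤ ⊥ := le_rfl
  have hrn : rn N X ∈ h := by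
    refine h1.2 ⟨h3 fun D hD hDt => ?_, fun E hE hEm hEn => ?_⟩
    · obtain ⟨n, d, hd, hdN, hdh, -⟩ := H3 D hD hDt
      exact ⟨d, hd, hdN, hdh⟩
    · obtain ⟨n, ε, hε, hav, hle⟩ := H1 E hE hEm hEn
      exact h4 ⟨(ε, E), hε, hE, hav⟩ _ (claim n ε hε hle)
  refine ⟨hrn, fun n => ?_⟩
  obtain ⟨k, ε, hε, hav, hle⟩ := H2 n
  have h6 := h5 ⟨(ε, e n), hε, he n, hav⟩ _ (claim k ε hε hle)
  rw [(h2 hrn).rp _ (he n)]
  by_contra hcon
  exact h6 hcon

end Pool.Agent.Lib.MP_a78e1f_lc.H95
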